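import Pool.Agent.N520.RO.Stm5

/-!
Project RO (helper520), part HYP (helper667): a subgroup of a rank one group all of whose elements
have a fixed vector in a representation without zero weight is bounded or fixes a plate.
-/

set_option autoImplicit false

open Set Filter Topology Metric
open Pool.Agent.W689.Mk Pool.Agent.TH94.MK Pool.Agent.R522.Mk.Rk

namespace Pool.Agent.N667.RO

open Pool.Agent.N520.RO

section rep
variable {G : Type} [Group G] [TopologicalSpace G] {K : Set G} {P : Subgroup G} {T : ℝ → G} {w : G}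
variable {E : Type} [NormedAddCommGroup E] [NormedSpace ℝ E] [FiniteDimensional ℝ E]
  (ρ : G →* (E ≃ₗ[ℝ] E))

/-- coordinates with respect to a basis of weight vectors -/
theorem exists_coord (hr : IsRep T ρ) (h0 : NoZero T ρ) :
    ∃ (ι : Type) (_ : Fintype ι) (b : Module.Basis ι ℝ E) (c : ι → ℝ), (∀ i, c i ≠ 0) ∧
      ∀ (i : ι) (t : ℝ) (v : E), b.coord i (ρ (T t) v) = Real.exp (c i * t) * b.coord i v := by
  classical
  let b := Module.Basis.ofSpan hr.2.ge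
  have hb : ∀ i, ∃ c : ℝ, ∀ t : ℝ, ρ (T t) (b i) = Real.exp (c * t) • b i := fun i =>
    Module.Basis.ofSpan_subset hr.2.ge ⟨i, rfl⟩
  choose c hc using hb
  refine ⟨_, FiniteDimensional.fintypeBasisIndex b, b, c, fun i hi => ?_, fun i t v => ?_⟩
  · refine b.ne_zero i (h0 (b i) fun t => ?_)
    rw [hc i t, hi, zero_mul, Real.exp_zero, one_smul]
  · have h1 : (b.coord i).comp (ρ (T t) : E →ₗ[ℝ] E) = Real.exp (c i * t) • b.coord i := by
      refine b.ext fun j => ?_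
      rw [LinearMap.comp_apply, LinearMap.smul_apply, LinearEquiv.coe_coe, hc j t, map_smul,
        Module.Basis.coord_apply, Module.Basis.repr_self, smul_eq_mul, smul_eq_mul]
      by_cases hij : j = i
      · rw [hij]
      · rw [Finsupp.single_apply, if_neg hij, mul_zero, mul_zero]
    exact congrArg (fun f : E →ₗ[ℝ] ℝ => f v) h1

variable {ι : Type} [Fintype ι] (b : Module.Basis ι ℝ E) (c : ι → ℝ)

/-- bounded orbits in coordinates -/
theorem bdd_iff (h : ∀ (i : ι) (t : ℝ) (v : E),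
    b.coord i (ρ (T t) v) = Real.exp (c i * t) * b.coord i v) (σ : ℝ) (v : E) :
    (∃ C : ℝ, ∀ t : ℝ, 0 ≤ t → ‖ρ (T (σ * t)) v‖ ≤ C) ↔ ∀ i, 0 < c i * σ → b.coord i v = 0 := by
  constructor
  · rintro ⟨C, hC⟩ i hi
    by_contra hv
    have hcont : Continuous (b.coord i) := LinearMap.continuous_of_finiteDimensional _
    obtain ⟨M, hM⟩ : ∃ M : ℝ, ∀ u, |b.coord i u| ≤ M * ‖u‖ := by
      refine ⟨‖LinearMap.toContinuousLinearMap (b.coord i)‖, fun u => ?_⟩
      exact (LinearMap.toContinuousLinearMap (b.coord i)).le_opNorm u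
    have h1 : Tendsto (fun t : ℝ => Real.exp (c i * σ * t) * |b.coord i v|) atTop atTop := by
      refine Tendsto.atTop_mul_const (abs_pos.2 hv) ?_
      exact Real.tendsto_exp_atTop.comp (tendsto_id.const_mul_atTop hi)
    obtain ⟨t, ht0, ht⟩ := ((eventually_ge_atTop (0 : ℝ)).and
      (h1.eventually_gt_atTop (|M| * |C|))).exists
    have h2 : Real.exp (c i * σ * t) * |b.coord i v| ≤ |M| * |C| := by
      have h3 := hM (ρ (T (σ * t)) v)
      rw [h, abs_mul, abs_of_pos (Real.exp_pos _), ← mul_assoc] at h3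
      refine h3.trans ?_
      calc M * ‖ρ (T (σ * t)) v‖ ≤ |M| * ‖ρ (T (σ * t)) v‖ := by
            gcongr
            exact le_abs_self M
        _ ≤ |M| * |C| := by
            gcongr
            exact (hC t ht0).trans (le_abs_self C)
    linarith
  · intro hv
    refine ⟨∑ i, |b.coord i v| * ‖b i‖, fun t ht => ?_⟩
    have h1 : ρ (T (σ * t)) v = ∑ i, (b.coord i (ρ (T (σ * t)) v)) • b i := by
      conv_lhs => rw [← b.sum_repr (ρ (T (σ * t)) v)]
      rfl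
    rw [h1]
    refine (norm_sum_le _ _).trans (Finset.sum_le_sum fun i _ => ?_)
    rw [norm_smul, Real.norm_eq_abs, h, abs_mul, abs_of_pos (Real.exp_pos _)]
    refine mul_le_mul_of_nonneg_right ?_ (norm_nonneg _)
    by_cases hi : 0 < c i * σ
    · rw [hv i hi, abs_zero, mul_zero]
    · have h2 : Real.exp (c i * (σ * t)) ≤ 1 := by
        rw [Real.exp_le_one_iff, ← mul_assoc]
        exact mul_nonpos_of_nonpos_of_nonneg (not_lt.1 hi) ht
      calc Real.exp (c i * (σ * t)) * |b.coord i v| ≤ 1 * |b.coord i v| := by gcongr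
        _ = |b.coord i v| := one_mul _

theorem up_iff (h : ∀ (i : ι) (t : ℝ) (v : E),
    b.coord i (ρ (T t) v) = Real.exp (c i * t) * b.coord i v) (v : E) :
    v ∈ upT T ρ ↔ ∀ i, c i < 0 → b.coord i v = 0 := by
  have h1 := bdd_iff ρ b c h (-1) v
  have h2 : v ∈ upT T ρ ↔ ∃ C : ℝ, ∀ t : ℝ, 0 ≤ t → ‖ρ (T (-1 * t)) v‖ ≤ C := by
    simp only [neg_one_mul]
    rfl
  rw [h2, h1]
  refine forall_congr' fun i => ?_
  rw [mul_neg_one, neg_pos]

theorem down_iff (h : ∀ (i : ι) (t : ℝ) (v : E),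
    b.coord i (ρ (T t) v) = Real.exp (c i * t) * b.coord i v) (v : E) :
    (∃ C : ℝ, ∀ t : ℝ, 0 ≤ t → ‖ρ (T t) v‖ ≤ C) ↔ ∀ i, 0 < c i → b.coord i v = 0 := by
  have h1 := bdd_iff ρ b c h 1 v
  simp only [one_mul, mul_one] at h1
  exact h1

/-- the Weyl element exchanges the two spaces -/
theorem down_of_up (hR : RankOne K P T w) (hr : IsRep T ρ) {u : E} (hu : u ∈ upT T ρ) :
    ∃ C : ℝ, ∀ t : ℝ, 0 ≤ t → ‖ρ (T t) (ρ w u)‖ ≤ C := by
  obtain ⟨C0, hC0, h0⟩ := rbdd ρ hr.1 hR.compact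
  obtain ⟨C, hC⟩ := hu
  obtain ⟨a, ha⟩ := eventually_atTop.mp hR.weyl
  obtain ⟨C', hC'⟩ := bddT ρ hr |a| (ρ w u)
  refine ⟨max (C0 * C) C', fun t ht => ?_⟩
  rcases le_total a t with h1 | h1
  · refine le_trans ?_ (le_max_left _ _)
    have e : ρ (T t) (ρ w u) = ρ (T t * w * T t) (ρ (T (-t)) u) := by
      rw [← rmul, ← rmul]
      congr 2
      rw [T_neg hR.add]
      group
    rw [e]
    refine (h0 _ (ha t h1) _).trans ?_
    gcongr
    exact hC t ht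
  · refine (hC' t ?_).trans (le_max_right _ _)
    rw [abs_of_nonneg ht]
    exact h1.trans (le_abs_self _)

theorem finrank_map' (g : G) (U : Submodule ℝ E) :
    Module.finrank ℝ (U.map (ρ g : E →ₗ[ℝ] E)) = Module.finrank ℝ U :=
  LinearEquiv.finrank_map_eq (ρ g) U

theorem mem_map' (g : G) (U : Submodule ℝ E) (v : E) :
    v ∈ U.map (ρ g : E →ₗ[ℝ] E) ↔ ρ g⁻¹ v ∈ U := by
  constructor
  · rintro ⟨u, hu, rfl⟩
    show ρ g⁻¹ (ρ g u) ∈ U
    rw [rinv_apply]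
    exact hu
  · intro hv
    exact ⟨_, hv, rapply_inv ρ g v⟩

/-- the dimension -/
theorem finrank_two (hG : IsTopologicalGroup G) (hR : RankOne K P T w) (hr : IsRep T ρ)
    (h0 : NoZero T ρ) : Module.finrank ℝ E = 2 * Module.finrank ℝ (upT T ρ) := by
  obtain ⟨ι, _, b, c, hc, h⟩ := exists_coord ρ hr h0
  have hinf : upT T ρ ⊓ (upT T ρ).map (ρ w : E →ₗ[ℝ] E) = ⊥ := by
    rw [eq_bot_iff]
    rintro v ⟨h1, h2⟩
    obtain ⟨u, hu, rfl⟩ := h2
    have h3 := (up_iff ρ b c h _).1 h1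
    have h4 := (down_iff ρ b c h _).1 (down_of_up ρ hR hr hu)
    rw [Submodule.mem_bot]
    refine (b.ext_elem_iff).2 fun i => ?_
    rw [map_zero, Finsupp.zero_apply]
    rcases lt_or_gt_of_ne (hc i) with hi | hi
    · exact h3 i hi
    · exact h4 i hi
  have hsup : upT T ρ ⊔ (upT T ρ).map (ρ w : E →ₗ[ℝ] E) = ⊤ := by
    rw [eq_top_iff]
    intro v _
    obtain ⟨v1, v2, he, h1, h2⟩ := decT ρ hr v
    rw [he]
    refine Submodule.add_mem_sup h1 ?_
    rw [mem_map']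
    exact up_of_down ρ hG hR hr h2
  have := Submodule.finrank_sup_add_finrank_inf_eq (upT T ρ) ((upT T ρ).map (ρ w : E →ₗ[ℝ] E))
  rw [hinf, hsup, finrank_top, finrank_bot, finrank_map'] at this
  omega

/-- different plates are independent -/
theorem indep (hG : IsTopologicalGroup G) (hR : RankOne K P T w) (hr : IsRep T ρ)
    (h0 : NoZero T ρ) {k l : G} (hm : k⁻¹ * l ∉ P) {v : E} (hk : ρ k⁻¹ v ∈ upT T ρ)
    (hl : ρ l⁻¹ v ∈ upT T ρ) : v = 0 := by
  have hsup : (upT T ρ).map (ρ k : E →ₗ[ℝ] E) ⊔ (upT T ρ).map (ρ l : E →ₗ[ℝ] E) = ⊤ := by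
    rw [eq_top_iff]
    intro e _
    obtain ⟨f, f', hf⟩ := transT1 ρ hG hR hr hm e
    rw [plateT_apply, plateT_apply, sub_eq_add_neg, ← map_neg] at hf
    rw [← hf]
    exact Submodule.add_mem_sup ⟨f, f.2, rfl⟩ ⟨-f', (upT T ρ).neg_mem f'.2, rfl⟩
  have h1 := Submodule.finrank_sup_add_finrank_inf_eq ((upT T ρ).map (ρ k : E →ₗ[ℝ] E))
    ((upT T ρ).map (ρ l : E →ₗ[ℝ] E))
  rw [hsup, finrank_top, finrank_map', finrank_map', finrank_two ρ hG hR hr h0] at h1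
  have h2 : Module.finrank ℝ
      ((upT T ρ).map (ρ k : E →ₗ[ℝ] E) ⊓ (upT T ρ).map (ρ l : E →ₗ[ℝ] E) : Submodule ℝ E) = 0 := by
    omega
  have h3 := Submodule.finrank_eq_zero.1 h2
  have h4 : v ∈ ((upT T ρ).map (ρ k : E →ₗ[ℝ] E) ⊓ (upT T ρ).map (ρ l : E →ₗ[ℝ] E) :
      Submodule ℝ E) := ⟨(mem_map' ρ k _ v).2 hk, (mem_map' ρ l _ v).2 hl⟩
  rw [h3] at h4
  exact (Submodule.mem_bot ℝ).1 h4

/-- far elements of an unbounded subgroup -/
theorem exists_far (hR : RankOne K P T w) (hr : IsRep T ρ) (Λ : Subgroup G)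
    (hΛ : ¬ ∃ C : ℝ, ∀ g ∈ Λ, ∀ v, ‖ρ g v‖ ≤ C * ‖v‖) (R : ℝ) :
    ∃ g ∈ Λ, ∃ k ∈ K ∪ K⁻¹, ∃ l ∈ K ∪ K⁻¹, ∃ t : ℝ, R ≤ t ∧ g = k * T t * l := by
  obtain ⟨C0, hC0, h0⟩ := rbdd ρ hr.1 hR.compact
  obtain ⟨C1, hC1, h1⟩ := bddT_unif ρ hr |R|
  by_contra hcon
  apply hΛ
  refine ⟨C0 * (C1 * C0), fun g hg v => ?_⟩
  obtain ⟨k, hk, t, l, hl, rfl⟩ := hR.cartan g
  have ht : |t| ≤ |R| := by
    by_contra ht
    rw [not_le] at ht
    rcases le_total 0 t with h2 | h2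
    · rw [abs_of_nonneg h2] at ht
      exact hcon ⟨_, hg, k, Or.inl hk, l, Or.inl hl, t, (le_abs_self R).trans ht.le, rfl⟩
    · rw [abs_of_nonpos h2] at ht
      refine hcon ⟨_, Λ.inv_mem hg, l⁻¹, Or.inr (Set.inv_mem_inv.2 hl), k⁻¹,
        Or.inr (Set.inv_mem_inv.2 hk), -t, (le_abs_self R).trans ht.le, ?_⟩
      rw [T_neg hR.add]
      group
  rw [rmul, rmul]
  calc _ ≤ C0 * ‖ρ (T t) (ρ l v)‖ := h0 _ hk _
    _ ≤ C0 * (C1 * ‖ρ l v‖) := by
        gcongr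
        exact h1 t ht _
    _ ≤ C0 * (C1 * (C0 * ‖v‖)) := by
        gcongr
        exact h0 _ hl _
    _ = _ := by ring

end rep

theorem t_hyp : S_HYP := by
  intro G _ _ hG K P T w hR V _ _ _ ρ hr h0 Λ hfix
  by_cases hΛ : ∃ C : ℝ, ∀ g ∈ Λ, ∀ v, ‖ρ g v‖ ≤ C * ‖v‖
  · exact Or.inl hΛ
  right
  obtain ⟨ι, _, b, c, hc, hcoord⟩ := exists_coord ρ hr h0
  haveI : ProperSpace V := FiniteDimensional.proper ℝ V
  choose g hgΛ k hk l hl t ht hg using fun n : ℕ => exists_far ρ hR hr Λ hΛ (n : ℝ)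
  have htop : Tendsto t atTop atTop := tendsto_atTop_mono ht tendsto_natCast_atTop_atTop
  -- limits
  have hKc : IsCompact (K ∪ K⁻¹) := hR.compact.union hR.compact.inv
  have hRc := RR_cont ρ hr.1
  have hcomp : IsCompact ((fun p : G × G => (RR ρ p.1, RR ρ p.1⁻¹, RR ρ p.2)) ''
      ((K ∪ K⁻¹) ×ˢ (K ∪ K⁻¹))) := by
    refine (hKc.prod hKc).image ?_
    exact (hRc.comp continuous_fst).prodMk ((hRc.comp (continuous_inv.comp continuous_fst)).prodMk
      (hRc.comp continuous_snd))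
  obtain ⟨_, ⟨⟨k0, l0⟩, ⟨hk0, hl0⟩, rfl⟩, φ, hφ, hlim⟩ := hcomp.tendsto_subseq
    (x := fun n => (RR ρ (k n), RR ρ (k n)⁻¹, RR ρ (l n)))
    fun n => ⟨(k n, l n), ⟨hk n, hl n⟩, rfl⟩
  have hlimk' : Tendsto (fun n => RR ρ (k (φ n))⁻¹) atTop (𝓝 (RR ρ k0⁻¹)) :=
    ((continuous_fst.comp continuous_snd).tendsto _).comp hlim
  have hliml : Tendsto (fun n => RR ρ (l (φ n))) atTop (𝓝 (RR ρ l0)) :=
    ((continuous_snd.comp continuous_snd).tendsto _).comp hlim
  have htφ : Tendsto (fun n => t (φ n)) atTop atTop := htop.comp hφ.tendsto_atTop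
  have key : ∀ h ∈ Λ, (h * k0)⁻¹ * (l0⁻¹ * w) ∈ P := by
    intro h hh
    by_contra hm
    -- fixed vectors
    have hv : ∀ n, ∃ v ∈ sphere (0 : V) 1, ρ (h * g (φ n)) v = v := by
      intro n
      obtain ⟨v, hv0, hv⟩ := hfix _ (Λ.mul_mem hh (hgΛ (φ n)))
      have hn : ‖v‖ ≠ 0 := norm_ne_zero_iff.2 hv0
      refine ⟨‖v‖⁻¹ • v, ?_, by rw [map_smul, hv]⟩
      rw [mem_sphere_zero_iff_norm, norm_smul, norm_inv, norm_norm, inv_mul_cancel₀ hn]
    choose v hv1 hv2 using hv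
    obtain ⟨v0, hv0, ψ, hψ, hlimv⟩ := (isCompact_sphere (0 : V) 1).tendsto_subseq hv1
    have hv0' : v0 ≠ 0 := by
      intro h1
      rw [h1, mem_sphere_zero_iff_norm, norm_zero] at hv0
      norm_num at hv0
    apply hv0'
    -- the two sequences
    have hap : Continuous (fun p : (V →L[ℝ] V) × V => p.1 p.2) :=
      isBoundedBilinearMap_apply.continuous
    have hx : Tendsto (fun n => ρ (l (φ (ψ n))) (v (ψ n))) atTop (𝓝 (ρ l0 v0)) := by
      have h1 := (hap.tendsto (RR ρ l0, v0)).comp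
        ((hliml.comp hψ.tendsto_atTop).prodMk_nhds hlimv)
      exact h1
    have hy : Tendsto (fun n => ρ (k (φ (ψ n)))⁻¹ (ρ h⁻¹ (v (ψ n)))) atTop
        (𝓝 (ρ k0⁻¹ (ρ h⁻¹ v0))) := by
      have h2 : Tendsto (fun n => RR ρ h⁻¹ (v (ψ n))) atTop (𝓝 (RR ρ h⁻¹ v0)) :=
        ((RR ρ h⁻¹).continuous.tendsto _).comp hlimv
      have h1 := (hap.tendsto (RR ρ k0⁻¹, RR ρ h⁻¹ v0)).comp
        ((hlimk'.comp hψ.tendsto_atTop).prodMk_nhds h2)
      exact h1
    have hxy : ∀ n, ρ (k (φ (ψ n)))⁻¹ (ρ h⁻¹ (v (ψ n))) =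
        ρ (T (t (φ (ψ n)))) (ρ (l (φ (ψ n))) (v (ψ n))) := by
      intro n
      have h1 := hv2 (ψ n)
      rw [hg] at h1
      conv_lhs => rw [← h1]
      rw [← rmul, ← rmul, ← rmul]
      congr 2
      group
    have hcc : ∀ i, Continuous (b.coord i) := fun i => LinearMap.continuous_of_finiteDimensional _
    have hcx : ∀ i, Tendsto (fun n => b.coord i (ρ (l (φ (ψ n))) (v (ψ n)))) atTop
        (𝓝 (b.coord i (ρ l0 v0))) := fun i => ((hcc i).tendsto _).comp hx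
    have hcy : ∀ i, Tendsto (fun n => Real.exp (c i * t (φ (ψ n))) *
        b.coord i (ρ (l (φ (ψ n))) (v (ψ n)))) atTop
        (𝓝 (b.coord i (ρ k0⁻¹ (ρ h⁻¹ v0)))) := by
      intro i
      have h1 := ((hcc i).tendsto _).comp hy
      refine h1.congr fun n => ?_
      rw [Function.comp_apply, hxy, hcoord]
    have htt : Tendsto (fun n => t (φ (ψ n))) atTop atTop := htφ.comp hψ.tendsto_atTop
    refine indep ρ hG hR hr h0 hm ?_ ?_
    · rw [mul_inv_rev, rmul]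
      refine (up_iff ρ b c hcoord _).2 fun i hi => ?_
      have h1 : Tendsto (fun n => Real.exp (c i * t (φ (ψ n)))) atTop (𝓝 0) :=
        Real.tendsto_exp_atBot.comp (htt.const_mul_atTop_of_neg hi)
      have h2 := h1.mul (hcx i)
      rw [zero_mul] at h2
      exact tendsto_nhds_unique (hcy i) h2
    · have h3 : ∀ i, 0 < c i → b.coord i (ρ l0 v0) = 0 := by
        intro i hi
        have h1 : Tendsto (fun n => Real.exp (-c i * t (φ (ψ n)))) atTop (𝓝 0) :=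
          Real.tendsto_exp_atBot.comp (htt.const_mul_atTop_of_neg (by linarith))
        have h2 := h1.mul (hcy i)
        rw [zero_mul] at h2
        refine tendsto_nhds_unique (hcx i) (h2.congr fun n => ?_)
        rw [← mul_assoc, ← Real.exp_add, neg_mul, neg_add_cancel, Real.exp_zero, one_mul]
      have h4 := up_of_down ρ hG hR hr ((down_iff ρ b c hcoord _).2 h3)
      rw [mul_inv_rev, inv_inv, rmul]
      exact h4
  refine ⟨k0, fun h hh => ?_⟩
  have h1 := key 1 Λ.one_mem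
  have h2 := key h hh
  have h3 := P.inv_mem (P.mul_mem h2 (P.inv_mem h1))
  have h4 : ((h * k0)⁻¹ * (l0⁻¹ * w) * ((1 * k0)⁻¹ * (l0⁻¹ * w))⁻¹)⁻¹ = k0⁻¹ * h * k0 := by
    group
  rwa [h4] at h3

end Pool.Agent.N667.RO
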